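import Mathlib
import Pool.Agent.H736R5.MM.All
import Pool.Agent.H736R5.MM.Fin2
import Pool.Agent.H736R5.GL.All
import Pool.Agent.H736R5.GL.Final
import Pool.Agent.Q29.LitBlk

/-!
# Littlewood's problem for numbers with long blocks of equal partial quotients

Let `α` be an irrational number whose continued fraction has infinitely many blocks of 256 equal
consecutive partial quotients (the value may depend on the block). Then for every real `β` there are
infinitely many positive integers `q` with `q ‖q α‖ ‖q β‖ < 1/24`; if there are infinitely many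
blocks of 256 partial quotients `1`, the constant is `1/30`. Nothing is assumed about the other
partial quotients of `α`. So for a pair `(α, β)` with `liminf q ‖q α‖ ‖q β‖ ≥ 1/24` both continued
fractions contain only finitely many such blocks.

`MetallicMeans` (in this folder) is the case in which all but finitely many partial quotients are
equal. Its certificates for coverings of the torus by strips are used here
(`Pool/Agent/H736R5/`): inside a block of partial quotients `t` the values of `q ‖q α‖` at the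
combinations of two consecutive denominators are close to the values of the norm form of
`ℤ[μ]`, `μ ^ 2 = t μ + 1`, divided by `√(t ^ 2 + 4)`.
-/

set_option autoImplicit false

namespace Pool.Agent.Results.MP_0ea415_nt.BlocksOfEqualQuotients

open Filter

/-- complete quotients of `α`: `x 0 = α`, `x (k + 1) = 1 / {x k}` -/
noncomputable def complete (α : ℝ) : ℕ → ℝ
  | 0 => α
  | k + 1 => (Int.fract (complete α k))⁻¹

/-- partial quotients `a k = ⌊x k⌋` of `α = [a 0; a 1, a 2, ...]` -/
noncomputable def quotient (α : ℝ) (k : ℕ) : ℤ := ⌊complete α k⌋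

/-- there are infinitely many positive integers `q` with `q ‖q α‖ ‖q β‖ < κ` -/
def Small (κ α β : ℝ) : Prop :=
  ∀ N : ℕ, ∃ q : ℕ, N ≤ q ∧ 0 < q ∧
    (q : ℝ) * |(q : ℝ) * α - (round ((q : ℝ) * α) : ℝ)|
      * |(q : ℝ) * β - (round ((q : ℝ) * β) : ℝ)| < κ

theorem complete_eq (α : ℝ) (k : ℕ) : complete α k = Pool.Agent.H380R2.LC.cq α k := by
  induction k with
  | zero => rfl
  | succ k ih =>
    change (Int.fract (complete α k))⁻¹ = (Int.fract (Pool.Agent.H380R2.LC.cq α k))⁻¹
    rw [ih]

theorem quotient_eq (α : ℝ) (k : ℕ) : quotient α k = Pool.Agent.H380R2.LC.pq α k := by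
  unfold quotient Pool.Agent.H380R2.LC.pq
  rw [complete_eq]

theorem gold {α : ℝ} (hα : Irrational α) (β : ℝ)
    (h : ∃ᶠ k : ℕ in atTop, ∀ i < 256, quotient α (k + i) = 1) : Small (1 / 30) α β := by
  refine Pool.Agent.Q29.LitBlk.small_of_cov hα (t := 1) le_rfl (by norm_num) ?_ (c := 559 / 7500)
    (by norm_num) ?_ ?_ β
  · refine h.mono fun k hk i hi => ?_
    rw [← quotient_eq, hk i hi]
    rfl
  · have h5 : (2.23606 : ℝ) < √(((1 : ℕ) : ℝ) ^ 2 + 4) := by
      rw [Real.lt_sqrt (by norm_num)]
      norm_num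
    linarith
  · intro x y
    obtain ⟨q, p, z, hq, hp, hm, h⟩ :=
      H736R5.GL.good_all (H736R5.GL.all _ (Or.inl rfl)) (H736R5.GL.all _ (Or.inr rfl)) x y
    refine ⟨q, p, z, by omega, by omega, by simpa using hm, ?_⟩
    rw [lt_div_iff₀ (by norm_num)]
    simpa using h

theorem all {α : ℝ} (hα : Irrational α) (β : ℝ)
    (h : ∃ᶠ k : ℕ in atTop, ∀ i < 256, quotient α (k + i) = quotient α k) :
    Small (1 / 24) α β := by
  by_cases hl : ∃ᶠ k : ℕ in atTop, (12 : ℤ) ≤ Pool.Agent.H380R2.LC.pq α k
  · have h1 := Pool.Agent.Q29.LitBlk.small_of_large hα (a := 12) (by norm_num)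
      (by exact_mod_cast hl) β
    norm_num at h1
    exact h1
  rw [not_frequently] at hl
  -- one value occurs infinitely often
  have h2 : ∃ᶠ k : ℕ in atTop, ∃ t ∈ Finset.Icc 1 11, ∀ i < 256,
      Pool.Agent.H380R2.LC.pq α (k + i) = (t : ℕ) := by
    refine (h.and_eventually (hl.and (eventually_ge_atTop 1))).mono ?_
    rintro k ⟨h3, h4, h5⟩
    obtain ⟨j, rfl⟩ : ∃ j, k = j + 1 := ⟨k - 1, by omega⟩
    have h6 := Pool.Agent.H380R2.LC.pq_pos hα j
    refine ⟨(Pool.Agent.H380R2.LC.pq α (j + 1)).toNat, ?_, fun i hi => ?_⟩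
    · rw [Finset.mem_Icc]
      omega
    · have h7 := h3 i hi
      rw [quotient_eq, quotient_eq] at h7
      rw [h7]
      omega
  have h3 : ∃ t ∈ Finset.Icc 1 11, ∃ᶠ k : ℕ in atTop, ∀ i < 256,
      Pool.Agent.H380R2.LC.pq α (k + i) = (t : ℕ) := by
    by_contra hcon
    push Not at hcon
    apply h2
    have h4 : ∀ᶠ k : ℕ in atTop, ∀ t ∈ Finset.Icc 1 11, ¬ ∀ i < 256,
        Pool.Agent.H380R2.LC.pq α (k + i) = (t : ℕ) := by
      rw [Filter.eventually_all_finset]
      intro t ht
      refine (hcon t ht).mono fun x hx h => ?_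
      obtain ⟨i, hi, h1⟩ := hx
      exact h1 (h i hi)
    refine h4.mono fun k hk hcon => ?_
    obtain ⟨t, ht, h5⟩ := hcon
    exact hk t ht h5
  obtain ⟨t, ht, hb⟩ := h3
  rw [Finset.mem_Icc] at ht
  have key : ∀ cn : ℕ, cn ≤ 240000 → (((cn : ℝ) + 1 / 4) / 10000) ^ 2 < (t : ℝ) ^ 2 + 4 →
      (∀ x y : ℝ, H736R5.MM.Good t cn 240000 x y) → Small (1 / 24) α β := by
    intro cn hcn hcs hcov
    refine Pool.Agent.Q29.LitBlk.small_of_cov hα ht.1 ht.2 hb (c := (cn : ℝ) / (240000 : ℕ)) ?_
      (H736R5.MM.hc_small t cn hcs) ?_ β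
    · rw [div_le_one (by norm_num)]
      exact_mod_cast hcn
    · intro x y
      obtain ⟨q, p, z, hq, hp, hm, h⟩ := hcov x y
      refine ⟨q, p, z, hq, hp, hm, ?_⟩
      rw [lt_div_iff₀ (by norm_num)]
      exact h
  obtain ⟨h1, h11⟩ := ht
  interval_cases t
  · exact key 22360 (by norm_num) (by norm_num) H736R5.MM.cov1
  · exact key 28284 (by norm_num) (by norm_num) H736R5.MM.cov2
  · exact key 36055 (by norm_num) (by norm_num) H736R5.MM.cov3
  · exact key 44721 (by norm_num) (by norm_num) H736R5.MM.cov4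
  · exact key 53851 (by norm_num) (by norm_num) H736R5.MM.cov5
  · exact key 63245 (by norm_num) (by norm_num) H736R5.MM.cov6
  · exact key 72800 (by norm_num) (by norm_num) H736R5.MM.cov7
  · exact key 82461 (by norm_num) (by norm_num) H736R5.MM.cov8
  · exact key 92195 (by norm_num) (by norm_num) H736R5.MM.cov9
  · exact key 101980 (by norm_num) (by norm_num) H736R5.MM.cov10
  · exact key 111803 (by norm_num) (by norm_num) H736R5.MM.cov11

/-- **Main result.** -/
theorem result (α β : ℝ) (hα : Irrational α) :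
    ((∃ᶠ k : ℕ in atTop, ∀ i < 256, quotient α (k + i) = quotient α k) → Small (1 / 24) α β) ∧
    ((∃ᶠ k : ℕ in atTop, ∀ i < 256, quotient α (k + i) = 1) → Small (1 / 30) α β) :=
  ⟨all hα β, gold hα β⟩

end Pool.Agent.Results.MP_0ea415_nt.BlocksOfEqualQuotients
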