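import Mathlib
import Pool.Agent.Q34.CSD.LinkThm

/-! # MP_0ea415_nt: linked approximations of a counterexample to Littlewood's conjecture

For real numbers `α`, `β` we consider the bases of `ℤ ^ 3` which consist of points `(q, p, r)` with
`q > 0` and `p`, `r` the integers nearest to `q α`, `q β`. Let `δ(x)` be the signed distance of `x`
and the nearest integer.

1. Let `q`, `q'` belong to two different members of such a basis. The limit points in `ℝ ^ 4`, as
   the members of the basis tend to infinity, of the quadruples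
   `(q δ(qα) δ(qβ), q' / q, δ(q'α) / δ(qα), δ(q'β) / δ(qβ))` form a closed set `PairLimits α β`.
   If `(α, β)` is a counterexample to Littlewood's conjecture, then this set is not contained in the
   union of countably many C¹ submanifolds of `ℝ ^ 4` of dimension at most three.
2. The same is true for the limit points in `ℝ ^ 6` of the sextuples
   `(q_k / q_0, δ(q_k α) / δ(q_0 α), δ(q_k β) / δ(q_0 β))`, `k = 1, 2`, where `q_0`, `q_1`, `q_2`
   belong to the three members of the basis, and submanifolds of dimension at most five.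
3. The limit points of the pairs `(q δ(qα) δ(qβ), q' δ(q'α) δ(q'β))` are not contained in the union
   of countably many C¹ curves.
4. So Littlewood's conjecture holds for `(α, β)` if one of the three sets is contained in a countable
   union of C¹ submanifolds of smaller dimension than that of the space. -/

set_option autoImplicit false

open Filter Topology

namespace Pool.Agent.Results.MP_0ea415_nt.LinkedApproximations

/-- `q ⟨qα⟩ ⟨qβ⟩` -/
noncomputable def littlewood (α β : ℝ) (q : ℕ) : ℝ :=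
  (q : ℝ) * |(q : ℝ) * α - (round ((q : ℝ) * α) : ℝ)|
    * |(q : ℝ) * β - (round ((q : ℝ) * β) : ℝ)|

/-- `x` minus the nearest integer -/
noncomputable def δ (x : ℝ) : ℝ := x - (round x : ℝ)

/-- The matrices whose columns form a basis of `ℤ ^ 3` and are of the form `(q, p, r)` with `q > 0`,
`q ≥ N` and `p`, `r` the integers nearest to `q α`, `q β`. -/
def Bases (α β : ℝ) (N : ℕ) : Set (Matrix (Fin 3) (Fin 3) ℤ) :=
  {γ | |γ.det| = 1 ∧ ∀ k, 0 < γ 0 k ∧ (N : ℤ) ≤ γ 0 k ∧ γ 1 k = round ((γ 0 k : ℝ) * α) ∧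
    γ 2 k = round ((γ 0 k : ℝ) * β)}

/-- The limit points, as `N → ∞`, of `w γ`, `γ ∈ Bases α β N`. -/
def LimitPoints {V : Type*} [TopologicalSpace V] (α β : ℝ) (w : Matrix (Fin 3) (Fin 3) ℤ → V) :
    Set V :=
  {x | ∀ N : ℕ, x ∈ closure {y | ∃ γ ∈ Bases α β N, y = w γ}}

/-- `q δ(qα) δ(qβ)` and the ratios for the first two members of the basis -/
noncomputable def quadruple (α β : ℝ) (γ : Matrix (Fin 3) (Fin 3) ℤ) : Fin 4 → ℝ :=
  ![(γ 0 0 : ℝ) * δ ((γ 0 0 : ℝ) * α) * δ ((γ 0 0 : ℝ) * β), (γ 0 1 : ℝ) / (γ 0 0 : ℝ),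
    δ ((γ 0 1 : ℝ) * α) / δ ((γ 0 0 : ℝ) * α), δ ((γ 0 1 : ℝ) * β) / δ ((γ 0 0 : ℝ) * β)]

/-- the ratios for all the members of the basis -/
noncomputable def sextuple (α β : ℝ) (γ : Matrix (Fin 3) (Fin 3) ℤ) : Fin 3 → Fin 2 → ℝ :=
  ![fun k => (γ 0 k.succ : ℝ) / (γ 0 0 : ℝ),
    fun k => δ ((γ 0 k.succ : ℝ) * α) / δ ((γ 0 0 : ℝ) * α),
    fun k => δ ((γ 0 k.succ : ℝ) * β) / δ ((γ 0 0 : ℝ) * β)]

/-- `q δ(qα) δ(qβ)` for the first two members of the basis -/
noncomputable def values (α β : ℝ) (γ : Matrix (Fin 3) (Fin 3) ℤ) : Fin 2 → ℝ :=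
  ![(γ 0 0 : ℝ) * δ ((γ 0 0 : ℝ) * α) * δ ((γ 0 0 : ℝ) * β),
    (γ 0 1 : ℝ) * δ ((γ 0 1 : ℝ) * α) * δ ((γ 0 1 : ℝ) * β)]

/-- `S` is a C¹ submanifold of dimension at most `n`, the set of zeros in an open set `W` of a C¹
map `φ` to `ℝ ^ r` with surjective derivatives, where `dim V - r ≤ n`. -/
def Piece {V : Type*} [NormedAddCommGroup V] [NormedSpace ℝ V] (n : ℕ) (S : Set V) : Prop :=
  ∃ (r : ℕ) (W : Set V) (φ : V → Fin r → ℝ), Module.finrank ℝ V ≤ n + r ∧ IsOpen W ∧
    ContDiffOn ℝ 1 φ W ∧ (∀ x ∈ W, Function.Surjective (fderiv ℝ φ x)) ∧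
    S = {x | x ∈ W ∧ φ x = 0}

/-- `E` is covered by countably many C¹ submanifolds of dimension at most `n`. -/
def Thin {V : Type*} [NormedAddCommGroup V] [NormedSpace ℝ V] (n : ℕ) (E : Set V) : Prop :=
  ∃ S : ℕ → Set V, (∀ k, Piece n (S k)) ∧ E ⊆ ⋃ k, S k

lemma thin_iff {V : Type*} [NormedAddCommGroup V] [NormedSpace ℝ V] (n : ℕ) (E : Set V) :
    Thin n E ↔ Q34.CSDThin.Thin n E := Iff.rfl

lemma bases_eq (α β : ℝ) (N : ℕ) : Bases α β N = Q34.CSDThin.Bases α β N := rfl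

/-- the entries of the forms at the members of a basis -/
lemma entry {α β : ℝ} {N : ℕ} {γ : Matrix (Fin 3) (Fin 3) ℤ} (hγ : γ ∈ Bases α β N) (k : Fin 3) :
    (H715R2.LLm α β * H715R2.zR γ) 0 k = (γ 0 k : ℝ) ∧
    (H715R2.LLm α β * H715R2.zR γ) 1 k = δ ((γ 0 k : ℝ) * α) ∧
    (H715R2.LLm α β * H715R2.zR γ) 2 k = δ ((γ 0 k : ℝ) * β) := by
  obtain ⟨e0, e1, e2⟩ := Q34.CSDThin.orb_entry α β (fun _ => 1) γ k
  have h1 : Matrix.diagonal (fun _ : Fin 3 => (1 : ℝ)) = 1 := Matrix.diagonal_one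
  rw [h1, Matrix.one_mul] at e0 e1 e2
  obtain ⟨-, -, h2, h3⟩ := hγ.2 k
  refine ⟨by rw [e0, one_mul], by rw [e1, one_mul, h2]; rfl, by rw [e2, one_mul, h3]; rfl⟩

/-- limit points of functions of the forms -/
lemma mem_limitPoints {α β : ℝ} {V : Type*} [TopologicalSpace V]
    {v : Matrix (Fin 3) (Fin 3) ℝ → V} {w : Matrix (Fin 3) (Fin 3) ℤ → V}
    (hvw : ∀ N, ∀ γ ∈ Bases α β N, v (H715R2.LLm α β * H715R2.zR γ) = w γ)
    (hinv : ∀ (a : Fin 3 → ℝ) (g : Matrix (Fin 3) (Fin 3) ℝ),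
      (∀ i, 0 < a i) → ∏ i, a i = 1 → v (Matrix.diagonal a * g) = v g)
    {h : Matrix (Fin 3) (Fin 3) ℝ} (hh : h ∈ H715R2.YY (H715R2.LLm α β)) (hpos : ∀ k, 0 < h 0 k)
    (hv : ContinuousAt v h) : v h ∈ LimitPoints α β w := by
  intro N
  refine closure_mono ?_ (Q34.CSDThin.mem_limit hinv hh hpos hv N)
  rintro _ ⟨γ, hγ, rfl⟩
  exact ⟨γ, hγ, hvw N γ hγ⟩

lemma diag_entry (a : Fin 3 → ℝ) (g : Matrix (Fin 3) (Fin 3) ℝ) (i k : Fin 3) :
    (Matrix.diagonal a * g) i k = a i * g i k := Matrix.diagonal_mul a g i k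

lemma counterexample {α β : ℝ}
    (hc : ∃ ε : ℝ, 0 < ε ∧ ∃ N : ℕ, ∀ q : ℕ, N ≤ q → 0 < q → ε ≤ littlewood α β q) :
    ¬ Thin 3 (LimitPoints α β (quadruple α β)) ∧ ¬ Thin 5 (LimitPoints α β (sextuple α β)) ∧
    ¬ Thin 1 (LimitPoints α β (values α β)) := by
  obtain ⟨ε, hε, N, hN⟩ := hc
  obtain ⟨M, R, hMY, hR, hM, hne⟩ := Q34.CSDThin.exists_littlewood hε (N := N) hN
  have hO := Q34.CSDThin.isOpen_pos
  have hnz : ∀ g ∈ M, ∀ i k, g i k ≠ 0 := by
    intro g hg i k h0
    refine hM.nz g hg (Pi.single k 1) (by simp) i ?_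
    rw [Finset.sum_eq_single k]
    · simp [h0]
    · intro b _ hb
      simp [Pi.single_eq_of_ne hb]
    · intro h1
      exact absurd (Finset.mem_univ _) h1
  -- the two columns
  set x : Fin 2 → Fin 3 → ℤ := fun k => Pi.single k.castSucc 1 with hx
  have hcols : ∀ (g : Matrix (Fin 3) (Fin 3) ℝ) (k : Fin 2) (i : Fin 3),
      Q34.CSDThin.cols x g k i = g i k.castSucc := by
    intro g k i
    rw [show (Q34.CSDThin.cols x) g k i = ∑ l, g i l * (x k l : ℝ) from
      Q34.CSDThin.cols_apply x g k i, Finset.sum_eq_single k.castSucc]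
    · simp [hx]
    · intro b _ hb
      simp [hx, Pi.single_eq_of_ne hb]
    · intro h1
      exact absurd (Finset.mem_univ _) h1
  have hxli : LinearIndependent ℝ (fun (k : Fin 2) (j : Fin 3) => (x k j : ℝ)) := by
    rw [Fintype.linearIndependent_iff]
    intro b hb k
    have h1 := congrFun hb k.castSucc
    rw [Finset.sum_apply, Finset.sum_eq_single k] at h1
    · simpa [hx] using h1
    · intro j _ hj
      have h2 : k.castSucc ≠ j.castSucc := fun h => hj (Fin.castSucc_injective _ h).symm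
      simp [hx, Pi.single_eq_of_ne h2]
    · intro h1
      exact absurd (Finset.mem_univ _) h1
  have hcont : ∀ i k, Continuous (fun g : Matrix (Fin 3) (Fin 3) ℝ => g i k) :=
    fun i k => continuous_apply_apply i k
  refine ⟨fun hthin => ?_, fun hthin => ?_, fun hthin => ?_⟩
  · refine hM.not_thin_cols hR hO hne (by norm_num : 2 < 3) hxli (u := Q34.CSDThin.uu) (n := 3)
      (fun g hg => Q34.CSDThin.contDiffAt_uu fun i => ?_) (fun g hg => ?_)
      (Q34.CSDThin.Thin.subset hthin ?_)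
    · rw [hcols]; exact hnz g hg.2 _ _
    · rw [Q34.CSDThin.rank_uu fun i => ?_]
      · norm_num
      · rw [hcols]; exact hnz g hg.2 _ _
    · rintro _ ⟨g, hg, rfl⟩
      have hv : Q34.CSDThin.uu (Q34.CSDThin.cols x g) =
          ![g 0 0 * g 1 0 * g 2 0, g 0 1 / g 0 0, g 1 1 / g 1 0, g 2 1 / g 2 0] := by
        simp only [Q34.CSDThin.uu, hcols]
        rfl
      rw [hv]
      refine mem_limitPoints (v := fun g : Matrix (Fin 3) (Fin 3) ℝ =>
        ![g 0 0 * g 1 0 * g 2 0, g 0 1 / g 0 0, g 1 1 / g 1 0, g 2 1 / g 2 0])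
        (fun N γ hγ => ?_) (fun a g ha0 ha1 => ?_) (hMY hg.2) hg.1 ?_
      · obtain ⟨e0, e1, e2⟩ := entry hγ 0
        obtain ⟨f0, f1, f2⟩ := entry hγ 1
        simp only [quadruple, e0, e1, e2, f0, f1, f2]
      · rw [Fin.prod_univ_three] at ha1
        simp only [diag_entry]
        have h1 : a 0 * g 0 0 * (a 1 * g 1 0) * (a 2 * g 2 0) = g 0 0 * g 1 0 * g 2 0 := by
          calc _ = (a 0 * a 1 * a 2) * (g 0 0 * g 1 0 * g 2 0) := by ring
            _ = _ := by rw [ha1, one_mul]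
        rw [h1, mul_div_mul_left _ _ (ha0 0).ne', mul_div_mul_left _ _ (ha0 1).ne',
          mul_div_mul_left _ _ (ha0 2).ne']
      · refine continuousAt_pi.2 fun k => ?_
        fin_cases k
        · exact (((hcont 0 0).mul (hcont 1 0)).mul (hcont 2 0)).continuousAt
        · exact (hcont 0 1).continuousAt.div (hcont 0 0).continuousAt (hnz g hg.2 _ _)
        · exact (hcont 1 1).continuousAt.div (hcont 1 0).continuousAt (hnz g hg.2 _ _)
        · exact (hcont 2 1).continuousAt.div (hcont 2 0).continuousAt (hnz g hg.2 _ _)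
  · refine hM.not_thin_ratio hR hO hne (n := 5) (by norm_num)
      (Q34.CSDThin.Thin.subset hthin ?_)
    rintro _ ⟨g, hg, rfl⟩
    refine mem_limitPoints (v := fun g : Matrix (Fin 3) (Fin 3) ℝ =>
      Q34.CSDThin.ratio (e := 2) g) (fun N γ hγ => ?_) (fun a g ha0 ha1 => ?_) (hMY hg.2) hg.1 ?_
    · obtain ⟨e0, e1, e2⟩ := entry hγ 0
      funext i k
      obtain ⟨f0, f1, f2⟩ := entry hγ k.succ
      fin_cases i
      · show (H715R2.LLm α β * H715R2.zR γ) 0 k.succ / (H715R2.LLm α β * H715R2.zR γ) 0 0 = _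
        rw [e0, f0]; rfl
      · show (H715R2.LLm α β * H715R2.zR γ) 1 k.succ / (H715R2.LLm α β * H715R2.zR γ) 1 0 = _
        rw [e1, f1]; rfl
      · show (H715R2.LLm α β * H715R2.zR γ) 2 k.succ / (H715R2.LLm α β * H715R2.zR γ) 2 0 = _
        rw [e2, f2]; rfl
    · funext i k
      show (Matrix.diagonal a * g) i k.succ / (Matrix.diagonal a * g) i 0 = g i k.succ / g i 0
      rw [diag_entry, diag_entry, mul_div_mul_left _ _ (ha0 i).ne']
    · refine continuousAt_pi.2 fun i => continuousAt_pi.2 fun k => ?_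
      exact (hcont i k.succ).continuousAt.div (hcont i 0).continuousAt (hnz g hg.2 _ _)
  · refine hM.not_thin_cols hR hO hne (by norm_num : 2 < 3) hxli (u := Q34.CSDThin.uv) (n := 1)
      (fun g hg => Q34.CSDThin.contDiffAt_uv) (fun g hg => ?_)
      (Q34.CSDThin.Thin.subset hthin ?_)
    · rw [Q34.CSDThin.rank_uv fun k i => ?_]
      · norm_num
      · rw [hcols]; exact hnz g hg.2 _ _
    · rintro _ ⟨g, hg, rfl⟩
      have hv : Q34.CSDThin.uv (Q34.CSDThin.cols x g) =
          ![g 0 0 * g 1 0 * g 2 0, g 0 1 * g 1 1 * g 2 1] := by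
        funext k
        simp only [Q34.CSDThin.uv, hcols]
        fin_cases k <;> rfl
      rw [hv]
      refine mem_limitPoints (v := fun g : Matrix (Fin 3) (Fin 3) ℝ =>
        ![g 0 0 * g 1 0 * g 2 0, g 0 1 * g 1 1 * g 2 1])
        (fun N γ hγ => ?_) (fun a g ha0 ha1 => ?_) (hMY hg.2) hg.1 ?_
      · obtain ⟨e0, e1, e2⟩ := entry hγ 0
        obtain ⟨f0, f1, f2⟩ := entry hγ 1
        simp only [values, e0, e1, e2, f0, f1, f2]
      · rw [Fin.prod_univ_three] at ha1
        simp only [diag_entry]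
        have h1 : ∀ k : Fin 3, a 0 * g 0 k * (a 1 * g 1 k) * (a 2 * g 2 k) =
            g 0 k * g 1 k * g 2 k := by
          intro k
          calc _ = (a 0 * a 1 * a 2) * (g 0 k * g 1 k * g 2 k) := by ring
            _ = _ := by rw [ha1, one_mul]
        rw [h1, h1]
      · refine continuousAt_pi.2 fun k => ?_
        fin_cases k
        · exact (((hcont 0 0).mul (hcont 1 0)).mul (hcont 2 0)).continuousAt
        · exact (((hcont 0 1).mul (hcont 1 1)).mul (hcont 2 1)).continuousAt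

/-- **Theorem.** -/
theorem result :
    -- every counterexample
    (∀ α β : ℝ, (∃ ε : ℝ, 0 < ε ∧ ∃ N : ℕ, ∀ q : ℕ, N ≤ q → 0 < q → ε ≤ littlewood α β q) →
      ¬ Thin 3 (LimitPoints α β (quadruple α β)) ∧
      ¬ Thin 5 (LimitPoints α β (sextuple α β)) ∧
      ¬ Thin 1 (LimitPoints α β (values α β))) ∧
    -- a criterion
    (∀ α β : ℝ, (Thin 3 (LimitPoints α β (quadruple α β)) ∨
        Thin 5 (LimitPoints α β (sextuple α β)) ∨ Thin 1 (LimitPoints α β (values α β))) →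
      ∀ ε : ℝ, 0 < ε → ∀ N : ℕ, ∃ q : ℕ, N ≤ q ∧ 0 < q ∧ littlewood α β q < ε) := by
  refine ⟨fun α β hc => counterexample hc, fun α β hthin ε hε N => ?_⟩
  by_contra hcon
  push Not at hcon
  obtain ⟨h1, h2, h3⟩ := counterexample (α := α) (β := β) ⟨ε, hε, N, hcon⟩
  rcases hthin with h | h | h
  · exact h1 h
  · exact h2 h
  · exact h3 h

end Pool.Agent.Results.MP_0ea415_nt.LinkedApproximations
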