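import Mathlib
import Pool.Agent.Q29.LitWord

/-!
# Littlewood's conjecture along `b^j β`, for `α` whose continued fraction contains long powers of a word

Let `w` be a nonempty finite word and let `b ≥ 2` be an integer. We consider the irrational numbers `α`
whose sequence of partial quotients contains arbitrarily long blocks `w w … w` at arbitrarily late
places; nothing is assumed about the partial quotients outside of these blocks, which can be sparse.

1. Let `ε, δ > 0`. There is `N₀`, depending only on `w, b, ε, δ`, such that for all these `α`, all real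
`β` and every window of `N ≥ N₀` consecutive integers `j`, for all but at most `δ N` of the `j`
there are infinitely many `q` with `q ‖qα‖ ‖q b^j β‖ < ε`.

2. For every probability measure on `ℝ/ℤ` invariant under multiplication by `b` and each such `α`,
almost every `β` satisfies `liminf q ‖qα‖ ‖qβ‖ = 0`.

The file `GeometricOrbits` (in this folder) has these statements for quadratic irrationals `α`, where
all but finitely many partial quotients belong to one periodic block. The new point is that the limit
points of `(v' β, v β)`, for denominators `v, v'` at distance `2 |w|` in the middle of the long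
blocks, form a closed set that is invariant under the hyperbolic automorphism attached to `w`, so that
the uniform form of Berend's theorem in `Pool/Agent/W765/Hb5.lean` applies to them.
-/

set_option autoImplicit false

namespace Pool.Agent.Results.MP_0ea415_nt.RepeatedWords

open Filter MeasureTheory

/-- complete quotients of `α`: `x 0 = α`, `x (k + 1) = 1 / {x k}` -/
noncomputable def complete (α : ℝ) : ℕ → ℝ
  | 0 => α
  | k + 1 => (Int.fract (complete α k))⁻¹

/-- partial quotients `a k = ⌊x k⌋` of `α = [a 0; a 1, a 2, ...]` -/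
noncomputable def quotient (α : ℝ) (k : ℕ) : ℤ := ⌊complete α k⌋

/-- for all `n`, `N` the block `w w … w` (`n` copies) occurs in the sequence of the partial quotients
of `α` after the `N`-th one -/
def Powers (w : List ℤ) (α : ℝ) : Prop :=
  ∀ n N : ℕ, ∃ k ≥ N, ∀ i < n * w.length, quotient α (k + i) = w.getD (i % w.length) 0

/-- `q ‖q α‖ ‖q β‖ < ε` for infinitely many `q` -/
def Good (ε α β : ℝ) : Prop :=
  ∃ᶠ q : ℕ in atTop, (q : ℝ) * |(q : ℝ) * α - round ((q : ℝ) * α)| *
    |(q : ℝ) * β - round ((q : ℝ) * β)| < ε

theorem complete_eq (α : ℝ) (k : ℕ) : complete α k = Pool.Agent.H380R2.LC.cq α k := by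
  induction k with
  | zero => rfl
  | succ k ih =>
    change (Int.fract (complete α k))⁻¹ = (Int.fract (Pool.Agent.H380R2.LC.cq α k))⁻¹
    rw [ih]

theorem quotient_eq (α : ℝ) (k : ℕ) : quotient α k = Pool.Agent.H380R2.LC.pq α k := by
  unfold quotient Pool.Agent.H380R2.LC.pq
  rw [complete_eq]

theorem powers_iff {w : List ℤ} {α : ℝ} (h : Powers w α) : Pool.Agent.Q29.LitWord.Powers w α := by
  intro n N
  obtain ⟨k, hk, h1⟩ := h n N
  exact ⟨k, hk, fun i hi => by rw [← quotient_eq, h1 i hi]⟩

open Classical in
/-- **Main result.** -/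
theorem result (w : List ℤ) (hw : w ≠ []) (b : ℕ) (hb : 2 ≤ b) :
    (∀ ε δ : ℝ, 0 < ε → 0 < δ → ∃ N₀ : ℕ, ∀ α : ℝ, Irrational α → Powers w α → ∀ β : ℝ,
      ∀ T N : ℕ, N₀ ≤ N →
        (((Finset.range N).filter (fun i => ¬ Good ε α ((b : ℝ) ^ (T + i) * β))).card : ℝ) ≤
          δ * N) ∧
    (∀ μ : Measure (AddCircle (1 : ℝ)), IsProbabilityMeasure μ →
      MeasurePreserving (fun x : AddCircle (1 : ℝ) => b • x) μ μ →
      ∀ α : ℝ, Irrational α → Powers w α →
        ∀ᵐ x ∂μ, ∀ β : ℝ, (β : AddCircle (1 : ℝ)) = x → ∀ ε : ℝ, 0 < ε → Good ε α β) := by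
  refine ⟨fun ε δ hε hδ => ?_, fun μ _ hμ α hα hp => ?_⟩
  · obtain ⟨M, hM⟩ := Pool.Agent.Q29.LitWord.uniform_word w hw hb hε hδ
    exact ⟨M, fun α hα hp β T N hN => hM α hα (powers_iff hp) β T N hN⟩
  · exact Pool.Agent.Q29.LitWord.ae_word w hw hb hα (powers_iff hp) hμ

end Pool.Agent.Results.MP_0ea415_nt.RepeatedWords
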