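import Mathlib
import Pool.Agent.Q146.LR.Rank
import Pool.Agent.Q146.LR.Sum

/-! # MP_0ea415_nt: Littlewood's conjecture for a quadratic `α` and for `β` whose expansion in base
a unit of the field satisfies, on long windows, a linear recurrence of small order.

Let `ε > 1`, `ε² - tε + 1 = 0` with an integer `t ≥ 3`, and let `α = a + bε` with rational `a, b`
(every real quadratic irrational is of this form for a suitable `ε`). Every real `β` has expansions
`β = ∑ d_k ε^{-k}` with bounded integer digits `d_k`. Littlewood's conjecture holds for `(α, β)` if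
such an expansion has arbitrarily long windows of one of the following kinds.

1. On a window of length `N` the digits satisfy a recurrence `∑_{i ≤ D} c_i d_{k+i} = 0` with integer
   coefficients that are palindromic or antipalindromic (`c_{D-i} = ± c_i`) and of order
   `D ≤ 2N/3 - O(log ∑|c_i|)`. (With `R = N - D` equations: `K (∑|c_i|)^6 ε^D ≤ ε^{2R}`.)
2. The same with arbitrary integer coefficients and order `D ≤ N/3 - O(log ∑|c_i|)`.
3. On a window of length `N` the digits are the sum of `r` integer sequences which are periodic or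
   antiperiodic with periods `p_1, …, p_r` and `3 ∑ p_i + 5 r + K ≤ 2 N`. (For `r = 1` this is the
   known case of repetitions of exponent above `3/2`. For `r ≥ 2` such a window need not contain
   long repetitions.)
4. The Hankel matrix `(d_{s+j+i})` with `n` columns and `R ≥ (2+δ) n` rows has rank at most
   `(1-δ) n`, for a fixed `δ > 0` (no condition on the size of the coefficients).
5. The matrix `(d_{s+j+n+i} ± d_{s+j+n-1-i})` with `n` columns and `R ≥ (1+δ) n` rows has rank at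
   most `(1-δ) n`, for a fixed `δ > 0`. -/

namespace Pool.Agent.Results.MP_0ea415_nt.ShortRecurrences

open Finset

/-- Littlewood's conjecture for the pair `(α, β)` (the form of the frozen statement). -/
def Littlewood (α β : ℝ) : Prop :=
  ∀ η : ℝ, 0 < η → ∀ N : ℕ, ∃ q : ℕ, N ≤ q ∧ 0 < q ∧
    (q : ℝ) * |(q : ℝ) * α - (round ((q : ℝ) * α) : ℝ)|
      * |(q : ℝ) * β - (round ((q : ℝ) * β) : ℝ)| < η

/-- The recurrence `c_0 d_k + … + c_D d_{k+D} = 0` holds for `k = s, …, s + R - 1`. -/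
def Recurs (d : ℕ → ℤ) (s D R : ℕ) (c : ℕ → ℤ) : Prop :=
  ∀ j < R, ∑ i ∈ range (D + 1), c i * d (s + j + i) = 0

/-- The sum `|c_0| + … + |c_D|`. -/
def size (c : ℕ → ℤ) (D : ℕ) : ℤ := ∑ i ∈ range (D + 1), |c i|

theorem result :
    ∀ (t : ℤ) (ε : ℝ), 3 ≤ t → 1 < ε → ε ^ 2 - t * ε + 1 = 0 →
      ∀ (a b : ℚ) (α : ℝ), α = a + b * ε →
      ∀ (d : ℕ → ℤ) (β : ℝ), (∃ B : ℤ, ∀ k, |d k| ≤ B) → β = ∑' k : ℕ, (d k : ℝ) * ε⁻¹ ^ k →
        -- palindromic and antipalindromic recurrences of order at most 2/3 of the window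
        ((∀ K : ℕ, ∃ (s D R : ℕ) (c : ℕ → ℤ) (σ : ℤ), (σ = 1 ∨ σ = -1) ∧
            (∃ i ≤ D, c i ≠ 0) ∧ (∀ i ≤ D, c (D - i) = σ * c i) ∧ Recurs d s D R c ∧
            K * (size c D : ℝ) ^ 6 * ε ^ D ≤ ε ^ (2 * R)) → Littlewood α β) ∧
        -- arbitrary recurrences of order at most 1/3 of the window
        ((∀ K : ℕ, ∃ (s D R : ℕ) (c : ℕ → ℤ), (∃ i ≤ D, c i ≠ 0) ∧ Recurs d s D R c ∧
            K * (size c D : ℝ) ^ 6 * ε ^ (2 * D) ≤ ε ^ R) → Littlewood α β) ∧
        -- sums of few periodic or antiperiodic sequences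
        ((∀ K : ℕ, ∃ (r s N : ℕ) (p : Fin r → ℕ) (σ : Fin r → ℤ) (e : Fin r → ℕ → ℤ),
            (∀ i, 0 < p i ∧ (σ i = 1 ∨ σ i = -1)) ∧
            (∀ i k, s ≤ k → k + p i < s + N → e i (k + p i) = σ i * e i k) ∧
            (∀ k, s ≤ k → k < s + N → d k = ∑ i, e i k) ∧
            3 * ∑ i, p i + 5 * r + K ≤ 2 * N) → Littlewood α β) ∧
        -- Hankel matrices of deficient rank
        ((∃ δ : ℝ, 0 < δ ∧ ∀ n₀ : ℕ, ∃ n s R : ℕ, n₀ ≤ n ∧ (2 + δ) * n ≤ R ∧
            ((Matrix.of fun (j : Fin R) (i : Fin n) => (d (s + j + i) : ℚ)).rank : ℝ)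
              ≤ (1 - δ) * n) → Littlewood α β) ∧
        -- folded Hankel matrices of deficient rank
        ((∃ δ : ℝ, 0 < δ ∧ ∀ n₀ : ℕ, ∃ (n s R : ℕ) (σ : ℤ), n₀ ≤ n ∧ (σ = 1 ∨ σ = -1) ∧
            (1 + δ) * n ≤ R ∧
            ((Matrix.of fun (j : Fin R) (i : Fin n) =>
              ((d (s + j + n + i) + σ * d (s + j + (n - 1 - i)) : ℤ) : ℚ)).rank : ℝ)
              ≤ (1 - δ) * n) → Littlewood α β) := by
  intro t ε ht h1 hq a b α hα d β ⟨B, hB⟩ hβ
  have hb : H389R2.LC.Base t ε := ⟨ht, h1, hq⟩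
  have hBr : ∀ k, |(d k : ℝ)| ≤ (B : ℝ) := by
    intro k
    have := hB k
    exact_mod_cast this
  have hc : 0 < a.den * b.den := Nat.mul_pos a.den_pos b.den_pos
  have hαc : ((a.den * b.den : ℕ) : ℝ) * α
      = ((a.num * b.den : ℤ) : ℝ) + ((b.num * a.den : ℤ) : ℝ) * ε := by
    have ha : (a.den : ℝ) * (a : ℝ) = a.num := by
      have := Rat.mul_den_eq_num a
      have h2 : ((a * a.den : ℚ) : ℝ) = ((a.num : ℚ) : ℝ) := by rw [this]
      push_cast at h2
      linarith
    have hb' : (b.den : ℝ) * (b : ℝ) = b.num := by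
      have := Rat.mul_den_eq_num b
      have h2 : ((b * b.den : ℚ) : ℝ) = ((b.num : ℚ) : ℝ) := by rw [this]
      push_cast at h2
      linarith
    rw [hα]
    push_cast
    linear_combination (b.den : ℝ) * ha + (a.den : ℝ) * ε * hb'
  have hSA : ∀ (c : ℕ → ℤ) (D : ℕ), Q146.LR.SA c D = (size c D : ℝ) := by
    intro c D
    unfold Q146.LR.SA size
    push_cast
    rfl
  refine ⟨?_, ?_, ?_, ?_, ?_⟩
  · intro h
    apply H389R2.LC.liminf_of_inf
    intro η hη
    obtain ⟨K0, hK0, hK⟩ := Q146.LR.sgn_LC hb α β _ _ _ hc hαc d B hBr hβ η hη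
    obtain ⟨K, hKK⟩ := exists_nat_ge K0
    obtain ⟨s, D, R, c, σ, hσ, hne, hsym, hrel, hsz⟩ := h K
    refine hK D σ c s R (size c D) hσ hsym hne (hSA c D).le hrel (le_trans ?_ hsz)
    have h2 : (0 : ℝ) ≤ (size c D : ℝ) ^ 6 := by positivity
    apply mul_le_mul_of_nonneg_right _ (pow_pos hb.pos _).le
    exact mul_le_mul_of_nonneg_right hKK h2
  · intro h
    apply H389R2.LC.liminf_of_inf
    intro η hη
    obtain ⟨K0, hK0, hK⟩ := Q146.LR.any_LC hb α β _ _ _ hc hαc d B hBr hβ η hη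
    obtain ⟨K, hKK⟩ := exists_nat_ge K0
    obtain ⟨s, D, R, c, hne, hrel, hsz⟩ := h K
    refine hK D c s R (size c D) hne (hSA c D).le hrel (le_trans ?_ hsz)
    have h2 : (0 : ℝ) ≤ (size c D : ℝ) ^ 6 := by positivity
    apply mul_le_mul_of_nonneg_right _ (pow_pos hb.pos _).le
    exact mul_le_mul_of_nonneg_right hKK h2
  · intro h
    exact H389R2.LC.liminf_of_inf α β (Q146.LR.sum_LC hb α β _ _ _ hc hαc d B hBr hβ h)
  · rintro ⟨δ, hδ, h⟩
    exact H389R2.LC.liminf_of_inf α β (Q146.LR.hankel_LC hb α β _ _ _ hc hαc d B hBr hβ δ hδ h)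
  · rintro ⟨δ, hδ, h⟩
    exact H389R2.LC.liminf_of_inf α β (Q146.LR.mirror_LC hb α β _ _ _ hc hαc d B hBr hβ δ hδ h)

end Pool.Agent.Results.MP_0ea415_nt.ShortRecurrences
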